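import Pool.Agent.Y560.TF.Stm

/-!
Project TF: FAM1, infinitely many simultaneous variations.
-/

set_option autoImplicit false

namespace Pool.Agent.Y48.TF

open Set MeasureTheory
open Pool.Agent.H899R2.VP (St Adj PIso BF BF_iff IsoOn idOn inv comp zipSet)
open Pool.Agent.H533R2.VO (RS lift put OS Ic RIso Dich VC BlkV S_FINAL)
open Pool.Agent.H566P (ar R2 v2 a0 a1 lt ac co mk S_ACC S_MSG)
open Pool.Agent.Y560.TG (acc msg lt_mk ac_mk co_mk R2_ext piso_iff riso_iff riso_isoOn meas_lt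
  meas_ac meas_co meas_into cont_into piso_lt piso_ac piso_co piso_eq ex lt_ex ac_ex co_ex_even
  co_ex_odd piso_ex orb orb_ex Nm Off Sm Thin Few bf_trans0 bf_symm0 iso_trans0 iso_symm0
  iso_refl0 S_EXT S_GL S_MAT S_BP mat pick Se)
open Pool.Agent.Y560.TF

/-- Reduct. -/
theorem bf_red {P P' : ℕ → ℕ → Prop} {R R' : R2} {X Y : Set ℕ} {o : Ordinal.{0}}
    {p : Set (ℕ × ℕ)} (h : BF (lift (ex P R)) (lift (ex P' R')) X Y o p) :
    BF (lift R) (lift R') X Y o p := by
  induction o using WellFoundedLT.induction generalizing p with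
  | ind o ih =>
    rw [BF_iff] at h ⊢
    refine ⟨(piso_ex.1 h.1).1, fun o' ho' => ⟨fun x hx => ?_, fun y hy => ?_⟩⟩
    · obtain ⟨y, hy, hb⟩ := (h.2 o' ho').1 x hx
      exact ⟨y, hy, ih o' ho' hb⟩
    · obtain ⟨x, hx, hb⟩ := (h.2 o' ho').2 y hy
      exact ⟨x, hx, ih o' ho' hb⟩

section aux

variable {Γ : Type} [Group Γ] {g : ℕ → Γ} {α : Ordinal.{0}} {R : R2} {y d : ℕ → ℕ}
  {V : ℕ → R2}

theorem idx_some (hd : ∀ j k, j ≠ k → Disjoint (Ob R (y j) (d j)) (Ob R (y k) (d k)))
    {x k : ℕ} : idx R y d x = some k ↔ x ∈ Ob R (y k) (d k) := by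
  unfold idx
  split_ifs with h
  · constructor
    · intro h1
      have h2 := h.choose_spec
      rw [Option.some.injEq] at h1
      rwa [h1] at h2
    · intro h1
      rw [Option.some.injEq]
      by_contra h2
      exact (disjoint_left.1 (hd _ _ h2) h.choose_spec) h1
  · constructor
    · intro h1; exact absurd h1 (by simp)
    · intro h1; exact absurd ⟨k, h1⟩ h

theorem idx_none {x : ℕ} : idx R y d x = none ↔ ∀ k, x ∉ Ob R (y k) (d k) := by
  unfold idx
  split_ifs with h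
  · constructor
    · intro h1; exact absurd h1 (by simp)
    · intro h1
      obtain ⟨k, hk⟩ := h
      exact absurd hk (h1 k)
  · simp only [true_iff]
    intro k hk
    exact h ⟨k, hk⟩

theorem idx_y (h : Fm g α R y d V) (k : ℕ) : idx R y d (y k) = none :=
  idx_none.2 fun j => h.out k j

theorem off_refl (O : Set ℕ) (R : R2) : Off O R R :=
  ⟨fun _ _ _ => Iff.rfl, fun _ _ _ _ => Iff.rfl, fun _ _ _ => Iff.rfl⟩

theorem pick_cases (R : R2) (V : ℕ → R2) (S : Set ℕ) (k : ℕ) :
    pick R V S (some k) = R ∨ ∃ s, s / 2 = k ∧ pick R V S (some k) = V s := by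
  unfold pick
  simp only
  split_ifs with h1 h2
  · exact Or.inr ⟨_, by omega, rfl⟩
  · exact Or.inr ⟨_, by omega, rfl⟩
  · exact Or.inl rfl

theorem pick_bf (h : Fm g α R y d V) (S : Set ℕ) (k : ℕ) :
    BF (lift (lb R (y k))) (lift (ex (Q R (y k)) (pick R V S (some k))))
      (Ob R (y k) (d k)) (Ob R (y k) (d k)) α ∅ := by
  rcases pick_cases R V S k with h1 | ⟨s, rfl, h1⟩
  · rw [h1]
    exact (Pool.Agent.H899R2.VP.BF.refl _ _ _).subset (empty_subset _)
  · rw [h1]; exact h.bf s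

theorem fx_lt {S : Set ℕ} {a b : ℕ} : lt (FX R y d V S) a b ↔
    if idx R y d a = idx R y d b then lt (pick R V S (idx R y d a)) a b else lt R a b := by
  unfold FX
  rw [lt_mk]

theorem fx_ac {S : Set ℕ} {n a b : ℕ} : ac (FX R y d V S) n a b ↔
    if idx R y d a = idx R y d b then ac (pick R V S (idx R y d a)) n a b else ac R n a b := by
  unfold FX
  rw [ac_mk]

theorem fx_co {S : Set ℕ} {n a : ℕ} : co (FX R y d V S) n a ↔
    co (pick R V S (idx R y d a)) n a := by
  unfold FX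
  rw [co_mk]

theorem fx_lt_ne {S : Set ℕ} {a b : ℕ} (h : idx R y d a ≠ idx R y d b) :
    lt (FX R y d V S) a b ↔ lt R a b := by
  rw [fx_lt, if_neg h]

theorem fx_ac_ne {S : Set ℕ} {n a b : ℕ} (h : idx R y d a ≠ idx R y d b) :
    ac (FX R y d V S) n a b ↔ ac R n a b := by
  rw [fx_ac, if_neg h]

theorem fx_lt_c {S : Set ℕ} {a b : ℕ} {c : Option ℕ} (h1 : idx R y d a = c)
    (h2 : idx R y d b = c) : lt (FX R y d V S) a b ↔ lt (pick R V S c) a b := by
  rw [fx_lt, if_pos (h1.trans h2.symm), h1]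

theorem fx_ac_c {S : Set ℕ} {n a b : ℕ} {c : Option ℕ} (h1 : idx R y d a = c)
    (h2 : idx R y d b = c) : ac (FX R y d V S) n a b ↔ ac (pick R V S c) n a b := by
  rw [fx_ac, if_pos (h1.trans h2.symm), h1]

theorem fx_co_c {S : Set ℕ} {n a : ℕ} {c : Option ℕ} (h1 : idx R y d a = c) :
    co (FX R y d V S) n a ↔ co (pick R V S c) n a := by
  rw [fx_co, h1]

theorem fx_lt_none {S : Set ℕ} {a b : ℕ} (h1 : idx R y d a = none) :
    lt (FX R y d V S) a b ↔ lt R a b := by
  by_cases h : idx R y d a = idx R y d b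
  · rw [fx_lt_c h1 (h ▸ h1)]; rfl
  · exact fx_lt_ne h

theorem fx_ac_none {S : Set ℕ} {n a b : ℕ} (h1 : idx R y d a = none) :
    ac (FX R y d V S) n a b ↔ ac R n a b := by
  by_cases h : idx R y d a = idx R y d b
  · rw [fx_ac_c h1 (h ▸ h1)]; rfl
  · exact fx_ac_ne h

/-- The action of `R` preserves the classes. -/
theorem idx_ac (hG : S_GEO) (hg : Function.Surjective g) (h : Fm g α R y d V) {n a b : ℕ}
    (hab : ac R n a b) : idx R y d a = idx R y d b := by
  have hi := (hG Γ g hg R h.tr).inv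
  rcases ha : idx R y d a with _ | k
  · symm
    rw [idx_none] at ha ⊢
    intro k hk
    exact ha k ((hi n _ _ _ _ hab).2 hk)
  · symm
    rw [idx_some h.dis] at ha ⊢
    exact (hi n _ _ _ _ hab).1 ha

theorem idx_fxac (hG : S_GEO) (hg : Function.Surjective g) (h : Fm g α R y d V) {S : Set ℕ}
    {n a b : ℕ} (hab : ac (FX R y d V S) n a b) : idx R y d a = idx R y d b := by
  by_contra h1
  rw [fx_ac_ne h1] at hab
  exact h1 (idx_ac hG hg h hab)

theorem qq_odd (R : R2) (y d : ℕ → ℕ) (k v : ℕ) :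
    QQ R y d (2 * k + 1) v ↔ v ∈ Ob R (y k) (d k) := by
  unfold QQ
  rw [if_neg (by omega), show (2 * k + 1) / 2 = k by omega]

theorem qq_even (R : R2) (y d : ℕ → ℕ) (k m v : ℕ) :
    QQ R y d (2 * Nat.pair k m) v ↔ Q R (y k) m v := by
  unfold QQ
  rw [if_pos (by omega), show 2 * Nat.pair k m / 2 = Nat.pair k m by omega, Nat.unpair_pair]

/-- Elements of a class with the same label have the same `QQ`. -/
theorem qq_lu (hG : S_GEO) (hg : Function.Surjective g) (h : Fm g α R y d V) {k v v' : ℕ}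
    (hv : v ∈ Ob R (y k) (d k)) (hv' : v' ∈ Ob R (y k) (d k)) (hs : sl R (y k) v v') (m : ℕ) :
    QQ R y d m v ↔ QQ R y d m v' := by
  unfold QQ
  split_ifs with h1
  · exact (hG Γ g hg R h.tr).lu (y k) (d k) _ v v' (h.out _ k) hv hv' hs _
  · rw [← idx_some h.dis, ← idx_some h.dis, (idx_some h.dis).2 hv, (idx_some h.dis).2 hv']

/-- F2 -/
theorem f2 (hGL : S_GL) (hG : S_GEO) (hg : Function.Surjective g) (h : Fm g α R y d V)
    (S S' J : Set ℕ) (hJ : ∀ k ∉ J, pick R V S (some k) = pick R V S' (some k)) :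
    BF (lift (ex (QQ R y d) (FX R y d V S))) (lift (ex (QQ R y d) (FX R y d V S')))
      univ univ α (idOn {x | ∀ k ∈ J, x ∉ Ob R (y k) (d k)}) := by
  have hgeo := (hG Γ g hg R h.tr).mod
  let M : Option ℕ → R2 := fun c => match c with
    | none => ex (fun k v => v = k) R
    | some k => ex (Q R (y k)) (pick R V S (some k))
  let M' : Option ℕ → R2 := fun c => match c with
    | none => ex (fun k v => v = k) R
    | some k => ex (Q R (y k)) (pick R V S' (some k))
  refine (hGL (Option ℕ) (idx R y d) (ex (QQ R y d) (FX R y d V S))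
    (ex (QQ R y d) (FX R y d V S')) M M' ?_ ?_ ?_ ?_).1 α _ ?_ ?_
  · intro a b hab
    rw [lt_ex, lt_ex, fx_lt_ne hab, fx_lt_ne hab]
  · intro n a b hab
    rw [ac_ex] at hab
    exact idx_fxac hG hg h hab
  · intro n a b hab
    rw [ac_ex] at hab
    exact idx_fxac hG hg h hab
  · intro c q hq hp
    rcases c with _ | k
    · -- names
      have hp' : PIso (lift (ex (fun k v => v = k) R)) (lift (ex (fun k v => v = k) R)) q := hp
      rw [piso_ex] at hp'
      have he : ∀ u ∈ q, u.1 = u.2 := fun u hu => ((hp'.2 u.1 u hu).1 rfl).symm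
      refine ⟨?_, fun u hu w _ => ?_⟩
      · rw [piso_ex, piso_iff]
        refine ⟨⟨fun u hu v hv => ?_, fun u hu v hv => ?_, fun n u hu v hv => ?_,
          fun n u hu => ?_⟩, fun m u hu => ?_⟩
        · rw [he u hu, he v hv]
        · rw [← he u hu, ← he v hv, fx_lt_none (hq u hu).1, fx_lt_none (hq u hu).1]
        · rw [← he u hu, ← he v hv, fx_ac_none (hq u hu).1, fx_ac_none (hq u hu).1]
        · rw [← he u hu, fx_co_c (hq u hu).1, fx_co_c (hq u hu).1]; rfl
        · rw [he u hu]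
      · rw [he u hu]; exact ⟨Iff.rfl, Iff.rfl⟩
    · have hp' : PIso (lift (ex (Q R (y k)) (pick R V S (some k))))
        (lift (ex (Q R (y k)) (pick R V S' (some k)))) q := hp
      rw [piso_ex] at hp'
      obtain ⟨hp1, hp2⟩ := hp'
      rw [piso_iff] at hp1
      have hsl : ∀ u ∈ q, sl R (y k) u.1 u.2 := fun u hu m => hp2 m u hu
      refine ⟨?_, fun u hu w hw => ?_⟩
      · rw [piso_ex, piso_iff]
        refine ⟨⟨hp1.1, fun u hu v hv => ?_, fun n u hu v hv => ?_, fun n u hu => ?_⟩,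
          fun m u hu => ?_⟩
        · rw [fx_lt_c (hq u hu).1 (hq v hv).1, hp1.2.1 u hu v hv,
            fx_lt_c (hq u hu).2 (hq v hv).2]
        · rw [fx_ac_c (hq u hu).1 (hq v hv).1, hp1.2.2.1 n u hu v hv,
            fx_ac_c (hq u hu).2 (hq v hv).2]
        · rw [fx_co_c (hq u hu).1, hp1.2.2.2 n u hu, fx_co_c (hq u hu).2]
        · exact qq_lu hG hg h ((idx_some h.dis).1 (hq u hu).1) ((idx_some h.dis).1 (hq u hu).2)
            (hsl u hu) m
      · have e1 : idx R y d u.1 ≠ idx R y d w := by rw [(hq u hu).1]; exact fun e => hw e.symm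
        have e2 : idx R y d u.2 ≠ idx R y d w := by rw [(hq u hu).2]; exact fun e => hw e.symm
        simp only [lt_ex]
        rw [fx_lt_ne e1, fx_lt_ne e2, fx_lt_ne e1.symm, fx_lt_ne e2.symm]
        refine (hgeo (y k) (d k)).2 u.1 ((idx_some h.dis).1 (hq u hu).1) u.2
          ((idx_some h.dis).1 (hq u hu).2) (hsl u hu) w ?_
        intro h2
        exact hw ((idx_some h.dis).2 h2)
  · rintro ⟨u, v⟩ ⟨hu, _⟩
    simp only at hu
    rw [hu]
  · intro c
    rcases c with _ | k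
    · refine (Pool.Agent.H899R2.VP.BF.refl (lift (ex (fun k v => v = k) R))
        {x | idx R y d x = none} α).subset ?_
      rintro ⟨u, v⟩ ⟨⟨h1, h2⟩, h3⟩
      exact ⟨h1, h3⟩
    · by_cases hk : k ∈ J
      · have e : {x | idx R y d x = some k} = Ob R (y k) (d k) := by
          ext x
          exact idx_some h.dis
        rw [e]
        refine (bf_trans0 (bf_symm0 (pick_bf h S k)) (pick_bf h S' k)).subset ?_
        rintro ⟨u, v⟩ ⟨⟨h1, h2⟩, h3⟩
        exact absurd ((idx_some h.dis).1 h3) (h2 k hk)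
      · have e : M (some k) = M' (some k) := by
          change ex (Q R (y k)) (pick R V S (some k)) = ex (Q R (y k)) (pick R V S' (some k))
          rw [hJ k hk]
        rw [e]
        refine (Pool.Agent.H899R2.VP.BF.refl (lift (M' (some k)))
          {x | idx R y d x = some k} α).subset ?_
        rintro ⟨u, v⟩ ⟨⟨h1, h2⟩, h3⟩
        exact ⟨h1, h3⟩

theorem pick_empty (c : Option ℕ) : pick R V ∅ c = R := by
  rcases c with _ | k
  · rfl
  · unfold pick
    simp

/-- F5 -/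
theorem f5 : FX R y d V ∅ = R := by
  refine R2_ext (fun a b => ?_) (fun n a b => ?_) (fun n a => ?_)
  · rw [fx_lt]
    split_ifs
    · rw [pick_empty]
    · rfl
  · rw [fx_ac]
    split_ifs
    · rw [pick_empty]
    · rfl
  · rw [fx_co, pick_empty]

/-- All classes varied. -/
theorem f2' (hGL : S_GL) (hG : S_GEO) (hg : Function.Surjective g) (h : Fm g α R y d V)
    (S : Set ℕ) : BF (lift (ex (QQ R y d) R)) (lift (ex (QQ R y d) (FX R y d V S)))
      univ univ α (idOn {x | ∀ k, x ∉ Ob R (y k) (d k)}) := by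
  have h1 := f2 hGL hG hg h ∅ S univ (fun k hk => absurd (mem_univ k) hk)
  rw [f5] at h1
  refine h1.subset (Pool.Agent.H899R2.VP.idOn_mono ?_)
  intro x hx k _
  exact hx k

theorem mem_y (h : Fm g α R y d V) (k : ℕ) :
    (y k, y k) ∈ idOn {x | ∀ k, x ∉ Ob R (y k) (d k)} := ⟨rfl, fun j => h.out k j⟩

/-- F1: labels over `y k` in `FX`. -/
theorem q_fx (hGL : S_GL) (hG : S_GEO) (hT : S_TRQ) (hg : Function.Surjective g)
    (h : Fm g α R y d V) (S : Set ℕ) (k m v : ℕ) :
    Q (FX R y d V S) (y k) m v ↔ Q R (y k) m v := by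
  have h4 := (f2' hGL hG hg h S).mono (((Ordinal.natCast_lt_omega0 4).le).trans h.om)
  have l34 : ((3 : ℕ) : Ordinal.{0}) < ((4 : ℕ) : Ordinal.{0}) := by norm_num
  obtain ⟨v0, -, h5⟩ := h4.back l34 (mem_univ v)
  have h6 := (piso_ex.1 h5.piso).2 (2 * Nat.pair k m) (v0, v) (Or.inl rfl)
  rw [qq_even, qq_even] at h6
  have h7 : BF (lift R) (lift (FX R y d V S)) univ univ 3 _ := bf_red h5
  have h8 := hT.1 R (FX R y d V S) _ (y k) (y k) v0 v m h7 (Or.inr (mem_y h k)) (Or.inl rfl)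
  exact h8.symm.trans h6

/-- F4 -/
theorem f4 (hGL : S_GL) (hG : S_GEO) (hT : S_TRQ) (hg : Function.Surjective g)
    (h : Fm g α R y d V) (S : Set ℕ) (k : ℕ) :
    Ob (FX R y d V S) (y k) (d k) = Ob R (y k) (d k) := by
  have hgeo := hG Γ g hg R h.tr
  ext t
  have h4 := (f2' hGL hG hg h S).mono (((Ordinal.natCast_lt_omega0 10).le).trans h.om)
  have l1 : ((9 : ℕ) : Ordinal.{0}) < ((10 : ℕ) : Ordinal.{0}) := by norm_num
  have l2 : ((8 : ℕ) : Ordinal.{0}) < ((9 : ℕ) : Ordinal.{0}) := by norm_num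
  obtain ⟨e0, -, h5⟩ := h4.back l1 (mem_univ (d k))
  obtain ⟨t0, -, h6⟩ := h5.back l2 (mem_univ t)
  have q1 := (piso_ex.1 h6.piso).2 (2 * k + 1) (e0, d k) (Or.inr (Or.inl rfl))
  have q2 := (piso_ex.1 h6.piso).2 (2 * k + 1) (t0, t) (Or.inl rfl)
  rw [qq_odd, qq_odd] at q1 q2
  have he : e0 ∈ Ob R (y k) (d k) := q1.2 (hgeo.self _ _)
  have h7 : BF (lift R) (lift (FX R y d V S)) univ univ 8 _ := bf_red h6
  have h8 := hT.2.1 R (FX R y d V S) _ (y k) (y k) e0 (d k) t0 t h7
    (Or.inr (Or.inr (mem_y h k))) (Or.inr (Or.inl rfl)) (Or.inl rfl)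
  rw [hgeo.eqv _ _ _ he] at h8
  exact h8.symm.trans q2

/-- F5 -/
theorem f5' (hGL : S_GL) (hG : S_GEO) (hT : S_TRQ) (hg : Function.Surjective g)
    (h : Fm g α R y d V) (S : Set ℕ) (k : ℕ) :
    IsoOn (lift (ex (Q R (y k)) (pick R V S (some k)))) (lift (lb (FX R y d V S) (y k)))
    (Ob R (y k) (d k)) (Ob R (y k) (d k)) (idOn (Ob R (y k) (d k))) := by
  refine ⟨idOn (Ob R (y k) (d k)), Subset.rfl, ?_, ?_, fun x hx => ⟨x, rfl, hx⟩,
    fun x hx => ⟨x, rfl, hx⟩⟩
  · rintro ⟨u, v⟩ ⟨h1, h2⟩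
    simp only at h1 h2
    subst h1
    exact ⟨h2, h2⟩
  · unfold lb
    rw [piso_ex, piso_iff]
    refine ⟨⟨?_, ?_, ?_, ?_⟩, ?_⟩
    · rintro ⟨u, u'⟩ ⟨h1, _⟩ ⟨v, v'⟩ ⟨h2, _⟩
      simp only at h1 h2
      subst h1 h2
      exact Iff.rfl
    · rintro ⟨u, u'⟩ ⟨h1, h1'⟩ ⟨v, v'⟩ ⟨h2, h2'⟩
      simp only at h1 h2 h1' h2'
      subst h1 h2
      rw [fx_lt_c ((idx_some h.dis).2 h1') ((idx_some h.dis).2 h2')]
    · rintro n ⟨u, u'⟩ ⟨h1, h1'⟩ ⟨v, v'⟩ ⟨h2, h2'⟩
      simp only at h1 h2 h1' h2'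
      subst h1 h2
      rw [fx_ac_c ((idx_some h.dis).2 h1') ((idx_some h.dis).2 h2')]
    · rintro n ⟨u, u'⟩ ⟨h1, h1'⟩
      simp only at h1 h1'
      subst h1
      rw [fx_co_c ((idx_some h.dis).2 h1')]
    · rintro m ⟨u, u'⟩ ⟨h1, h1'⟩
      simp only at h1 h1'
      subst h1
      exact (q_fx hGL hG hT hg h S k m _).symm

theorem pick_se (ε : ℕ → Bool) (k : ℕ) :
    pick R V (Se ε) (some k) = if ε k = true then V (2 * k + 1) else V (2 * k) := by
  have h1 : 2 * k + 1 ∈ Se ε ↔ ε k = true := by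
    constructor
    · rintro ⟨j, hj⟩
      cases hb : ε j
      · rw [hb] at hj; simp at hj; omega
      · rw [hb] at hj
        have : k = j := by simp at hj; omega
        rw [this]; exact hb
    · intro hb
      exact ⟨k, by rw [hb]; rfl⟩
  have h2 : 2 * k ∈ Se ε ↔ ε k = false := by
    constructor
    · rintro ⟨j, hj⟩
      cases hb : ε j
      · rw [hb] at hj
        have : k = j := by simp at hj; omega
        rw [this]; exact hb
      · rw [hb] at hj; simp at hj; omega
    · intro hb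
      exact ⟨k, by rw [hb]; rfl⟩
  unfold pick
  simp only [h1, h2]
  cases hb : ε k <;> simp

theorem clopen_coord (G : Bool → Prop) (k : ℕ) : IsClopen {ε : ℕ → Bool | G (ε k)} := by
  have : IsClopen ((fun ε : ℕ → Bool => ε k) ⁻¹' {b | G b}) :=
    (isClopen_discrete {b : Bool | G b}).preimage (continuous_apply k)
  exact this

theorem clopen_pick (H : R2 → Prop) (c : Option ℕ) :
    IsClopen {ε : ℕ → Bool | H (pick R V (Se ε) c)} := by
  rcases c with _ | k
  · have : {ε : ℕ → Bool | H (pick R V (Se ε) none)} = {ε : ℕ → Bool | H R} := rfl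
    rw [this]
    by_cases h : H R
    · simp only [h]; exact isClopen_univ
    · simp only [h]; exact isClopen_empty
  · simp only [pick_se]
    exact clopen_coord (fun b => H (if b = true then V (2 * k + 1) else V (2 * k))) k

theorem clopen_const (p : Prop) : IsClopen {_ε : ℕ → Bool | p} := by
  by_cases h : p
  · simp only [h]; exact isClopen_univ
  · simp only [h]; exact isClopen_empty

/-- F7 -/
theorem f7 : Continuous (fun ε : ℕ → Bool => FX R y d V (Se ε)) := by
  refine cont_into (fun a b => ?_) (fun n a b => ?_) (fun n a => ?_)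
  · simp only [fx_lt]
    by_cases h : idx R y d a = idx R y d b
    · simp only [h, if_true]
      exact clopen_pick (fun W => lt W a b) _
    · simp only [h, if_false]
      exact clopen_const _
  · simp only [fx_ac]
    by_cases h : idx R y d a = idx R y d b
    · simp only [h, if_true]
      exact clopen_pick (fun W => ac W n a b) _
    · simp only [h, if_false]
      exact clopen_const _
  · simp only [fx_co]
    exact clopen_pick (fun W => co W n a) _

end aux

theorem t_FAM1 (hGL : S_GL) (hB : S_TBF) (hG : S_GEO) (hT : S_TRQ) : S_FAM1 := by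
  intro Γ _ g hg α R y d V h
  refine ⟨fun S k m v => q_fx hGL hG hT hg h S k m v,
    fun S S' J hJ => f2 hGL hG hg h S S' J hJ, fun S => ?_,
    fun S k => f4 hGL hG hT hg h S k, fun S k => f5' hGL hG hT hg h S k, f5, f7⟩
  exact hB Γ g hg R (FX R y d V S) h.tr
    (((bf_red (f2' hGL hG hg h S)).mono h.om).subset (empty_subset _))

end Pool.Agent.Y48.TF
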